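import Mathlib
import Pool.Agent.Robin.Main

/-!
# Among triangles of given area the equilateral one maximises the lowest Robin eigenvalue

For every negative boundary parameter `α` and every triangle `T`, the lowest eigenvalue of the
Robin Laplacian on `T` is at most that of the equilateral triangle `E` with `|E| = |T|`.
The definitions `tri`, `segInt`, `bdInt`, `rayleigh` and `robin` are in `Pool.Agent.Robin.Defs`.
-/

set_option autoImplicit false

open MeasureTheory Pool.Agent.Robin

namespace Pool.Agent.Results.MP_c79212_an.EquilateralRobin

/-- For every `α < 0`, every non-degenerate triangle `ABC` and every equilateral triangle `PQR`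
of the same area, the lowest Robin eigenvalue satisfies `λ₁(ABC, α) ≤ λ₁(PQR, α)`. -/
theorem result {α : ℝ} (hα : α < 0) {A B C P Q R : Plane}
    (hT : AffineIndependent ℝ ![A, B, C])
    (hPQ : dist P Q = dist Q R) (hQR : dist Q R = dist R P)
    (hvol : volume (tri P Q R) = volume (tri A B C)) :
    robin A B C α ≤ robin P Q R α :=
  main hα hT hPQ hQR hvol

end Pool.Agent.Results.MP_c79212_an.EquilateralRobin
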